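import Mathlib
import Pool.Agent.H53.ConfigDefs
import Pool.Agent.H53.ConfigCore

set_option autoImplicit false

/-!
# Every realizable `(n_3)` configuration with `n ≤ 14` has dimension 2 or 3

The definitions (`Config`, `Rep`, `Realizable`, `Rep.dim`, `dimension`) are in
`Pool/Agent/H53/ConfigDefs.lean`; the linear-algebra core is in `Pool/Agent/H53/ConfigCore.lean`.
Here we pass from a geometric representation in `ℝ^m` to vectors in `ℝ^m × ℝ`, and prove the
lower bound `2`.
-/

namespace Pool.Agent.H53.Cfg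

open Module

variable {n : ℕ} {C : Config n} {m : ℕ}

/-- Homogeneous coordinates of the image points. -/
noncomputable def Rep.vec (R : Rep C m) (p : Fin n) : EuclideanSpace ℝ (Fin m) × ℝ := (R.pt p, 1)

theorem Rep.vec_pair (R : Rep C m) (p q : Fin n) (hpq : p ≠ q) :
    LinearIndependent ℝ ![R.vec p, R.vec q] := by
  rw [LinearIndependent.pair_iff]
  intro s t h
  have h1 : s • R.pt p + t • R.pt q = 0 := by
    have := congrArg Prod.fst h
    simpa [Rep.vec] using this
  have h2 : s + t = 0 := by
    have := congrArg Prod.snd h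
    simpa [Rep.vec] using this
  have ht : t = -s := by linarith
  subst ht
  have h3 : s • (R.pt p - R.pt q) = 0 := by
    rw [smul_sub]
    rw [neg_smul] at h1
    rw [sub_eq_add_neg]
    exact h1
  rcases smul_eq_zero.1 h3 with h4 | h4
  · subst h4; simp
  · exact absurd (R.pt_injective (sub_eq_zero.1 h4)) hpq

/-- Two distinct points on an image line span its direction. -/
theorem Rep.direction_eq (R : Rep C m) {l : Finset (Fin n)} (hl : l ∈ C.lines) {p q : Fin n}
    (hp : p ∈ l) (hq : q ∈ l) (hpq : p ≠ q) :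
    (R.ln l).direction = Submodule.span ℝ {R.pt q - R.pt p} := by
  have hne : R.pt q - R.pt p ≠ 0 := by
    intro h
    exact hpq (R.pt_injective (sub_eq_zero.1 h)).symm
  have hmem : R.pt q - R.pt p ∈ (R.ln l).direction := by
    have h1 := (R.incidence p l hl).2 hp
    have h2 := (R.incidence q l hl).2 hq
    have := AffineSubspace.vsub_mem_direction h2 h1
    simpa using this
  symm
  apply Submodule.eq_of_le_of_finrank_eq
  · rw [Submodule.span_singleton_le_iff_mem]
    exact hmem
  · rw [finrank_span_singleton hne, R.ln_finrank l hl]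

theorem Rep.vec_line (R : Rep C m) (l : Finset (Fin n)) (hl : l ∈ C.lines) (p : Fin n)
    (hp : p ∈ l) (q : Fin n) (hq : q ∈ l) (hpq : p ≠ q) (r : Fin n) :
    R.vec r ∈ Submodule.span ℝ {R.vec p, R.vec q} ↔ r ∈ l := by
  have hpl := (R.incidence p l hl).2 hp
  have hql := (R.incidence q l hl).2 hq
  rw [Submodule.mem_span_pair]
  constructor
  · rintro ⟨a, b, hab⟩
    have h1 : a • R.pt p + b • R.pt q = R.pt r := by
      have := congrArg Prod.fst hab
      simpa [Rep.vec] using this
    have h2 : a + b = 1 := by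
      have := congrArg Prod.snd hab
      simpa [Rep.vec] using this
    rw [← R.incidence r l hl]
    have h3 : R.pt r = b • (R.pt q - R.pt p) + R.pt p := by
      rw [← h1, smul_sub]
      have ha : a = 1 - b := by linarith
      rw [ha, sub_smul, one_smul]
      abel
    rw [h3]
    have h4 : R.pt q - R.pt p ∈ (R.ln l).direction := by
      have := AffineSubspace.vsub_mem_direction hql hpl
      simpa using this
    have h5 := AffineSubspace.vadd_mem_of_mem_direction (Submodule.smul_mem _ b h4) hpl
    simpa using h5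
  · intro hr
    have hrl := (R.incidence r l hl).2 hr
    have h4 : R.pt r - R.pt p ∈ (R.ln l).direction := by
      have := AffineSubspace.vsub_mem_direction hrl hpl
      simpa using this
    rw [R.direction_eq hl hp hq hpq, Submodule.mem_span_singleton] at h4
    obtain ⟨c, hc⟩ := h4
    refine ⟨1 - c, c, ?_⟩
    have h5 : (1 - c) • R.pt p + c • R.pt q = R.pt r := by
      have : R.pt r = c • (R.pt q - R.pt p) + R.pt p := by rw [hc]; abel
      rw [this, smul_sub, sub_smul, one_smul]
      abel
    refine Prod.ext ?_ ?_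
    · simpa [Rep.vec] using h5
    · simp [Rep.vec]

/-- The dimension of the affine hull is at most the linear dimension of the homogeneous vectors
minus one. -/
theorem Rep.dim_add_one_le (R : Rep C m) (hn : 1 ≤ n) :
    R.dim + 1 ≤ finrank ℝ (Submodule.span ℝ (Set.range R.vec)) := by
  set S := Submodule.span ℝ (Set.range R.vec) with hS
  set D := (affineSpan ℝ (Set.range R.pt)).direction with hD
  let φ : S →ₗ[ℝ] ℝ := (LinearMap.snd ℝ (EuclideanSpace ℝ (Fin m)) ℝ).comp S.subtype
  have hvS : ∀ p, R.vec p ∈ S := fun p => Submodule.subset_span ⟨p, rfl⟩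
  have hDS : ∀ w ∈ D, ((w, (0 : ℝ)) : EuclideanSpace ℝ (Fin m) × ℝ) ∈ S := by
    intro w hw
    rw [hD, direction_affineSpan, vectorSpan_def] at hw
    refine Submodule.span_induction (p := fun w _ =>
      ((w, (0 : ℝ)) : EuclideanSpace ℝ (Fin m) × ℝ) ∈ S) ?_ ?_ ?_ ?_ hw
    · intro x hx
      rw [Set.mem_vsub] at hx
      obtain ⟨_, ⟨p, rfl⟩, _, ⟨q, rfl⟩, rfl⟩ := hx
      have : ((R.pt p -ᵥ R.pt q, (0 : ℝ)) : EuclideanSpace ℝ (Fin m) × ℝ)
          = R.vec p - R.vec q := by
        simp [Rep.vec]
      rw [this]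
      exact S.sub_mem (hvS p) (hvS q)
    · exact S.zero_mem
    · intro x y _ _ hx hy
      have : ((x + y, (0 : ℝ)) : EuclideanSpace ℝ (Fin m) × ℝ) = (x, 0) + (y, 0) := by simp
      rw [this]
      exact S.add_mem hx hy
    · intro a x _ hx
      have : ((a • x, (0 : ℝ)) : EuclideanSpace ℝ (Fin m) × ℝ) = a • (x, 0) := by simp
      rw [this]
      exact S.smul_mem a hx
  have hsurj : Function.Surjective φ := by
    intro c
    refine ⟨c • ⟨R.vec ⟨0, hn⟩, hvS _⟩, ?_⟩
    simp [φ, Rep.vec]
  have hrange : finrank ℝ (LinearMap.range φ) = 1 := by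
    rw [LinearMap.range_eq_top.2 hsurj, finrank_top, finrank_self]
  have hker : finrank ℝ D ≤ finrank ℝ (LinearMap.ker φ) := by
    let ψ : D →ₗ[ℝ] LinearMap.ker φ :=
      { toFun := fun w => ⟨⟨(w.1, 0), hDS w.1 w.2⟩, by simp [φ]⟩
        map_add' := by
          intro x y
          apply Subtype.ext
          apply Subtype.ext
          simp
        map_smul' := by
          intro a x
          apply Subtype.ext
          apply Subtype.ext
          simp }
    apply LinearMap.finrank_le_finrank_of_injective (f := ψ)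
    intro x y hxy
    have h1 := congrArg (fun z => z.1.1.1) hxy
    exact Subtype.ext h1
  have := LinearMap.finrank_range_add_finrank_ker φ
  show finrank ℝ D + 1 ≤ finrank ℝ S
  omega

/-- The image points are not all on a line. -/
theorem Rep.two_le_dim (R : Rep C m) (hn : 1 ≤ n) : 2 ≤ R.dim := by
  by_contra hcon
  set D := (affineSpan ℝ (Set.range R.pt)).direction with hD
  have hD1 : finrank ℝ D ≤ 1 := by
    have : finrank ℝ D = R.dim := rfl
    omega
  -- the three lines through point `0`
  have hdeg := C.degree ⟨0, hn⟩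
  have h1 : 1 < (C.lines.filter (fun l => (⟨0, hn⟩ : Fin n) ∈ l)).card := by omega
  obtain ⟨l, hl, l', hl', hne⟩ := Finset.one_lt_card.1 h1
  rw [Finset.mem_filter] at hl hl'
  have hdir : ∀ l ∈ C.lines, (⟨0, hn⟩ : Fin n) ∈ l → (R.ln l).direction = D := by
    intro l hl h0
    have hc := C.card_line l hl
    have h2 : ∃ q ∈ l, q ≠ (⟨0, hn⟩ : Fin n) := by
      apply Finset.exists_mem_ne
      omega
    obtain ⟨q, hq, hq0⟩ := h2
    rw [R.direction_eq hl h0 hq hq0.symm]
    have hne' : R.pt q - R.pt ⟨0, hn⟩ ≠ 0 := by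
      intro h
      exact hq0 (R.pt_injective (sub_eq_zero.1 h))
    apply Submodule.eq_of_le_of_finrank_le
    · rw [Submodule.span_singleton_le_iff_mem, hD]
      have hq' : R.pt q ∈ affineSpan ℝ (Set.range R.pt) :=
        subset_affineSpan ℝ _ ⟨q, rfl⟩
      have h0' : R.pt ⟨0, hn⟩ ∈ affineSpan ℝ (Set.range R.pt) :=
        subset_affineSpan ℝ _ ⟨_, rfl⟩
      have := AffineSubspace.vsub_mem_direction hq' h0'
      simpa using this
    · rw [finrank_span_singleton hne']
      exact hD1
  apply hne
  apply R.ln_injOn l hl.1 l' hl'.1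
  apply AffineSubspace.ext_of_direction_eq
  · rw [hdir l hl.1 hl.2, hdir l' hl'.1 hl'.2]
  · exact ⟨R.pt ⟨0, hn⟩, (R.incidence _ l hl.1).2 hl.2, (R.incidence _ l' hl'.1).2 hl'.2⟩

/-- The affine hull has dimension at most 3 if `n ≤ 14`. -/
theorem Rep.dim_le_three (R : Rep C m) (hn : 1 ≤ n) (hn14 : n ≤ 14) : R.dim ≤ 3 := by
  have h1 := core hn hn14 C R.vec R.vec_pair R.vec_line
  have h2 := R.dim_add_one_le hn
  omega

end Pool.Agent.H53.Cfg

namespace Pool.Agent.Results.MP_ac1762_co.DimensionTwoOrThree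

open Pool.Agent.H53.Cfg

/-- **Main theorem.** Every realizable `(n_3)` configuration with `1 ≤ n ≤ 14` has dimension
2 or 3. -/
theorem result (n : ℕ) (hn : 1 ≤ n) (hn14 : n ≤ 14) (C : Config n) (hC : Realizable C) :
    dimension C = 2 ∨ dimension C = 3 := by
  have hmem : dimension C ∈ {d : ℕ | ∃ (m : ℕ) (R : Rep C m), R.dim = d} := by
    apply Nat.sSup_mem
    · obtain ⟨m, ⟨R⟩⟩ := hC
      exact ⟨R.dim, m, R, rfl⟩
    · refine ⟨3, ?_⟩
      rintro d ⟨m, R, rfl⟩
      exact R.dim_le_three hn hn14
  obtain ⟨m, R, hR⟩ := hmem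
  have h1 := R.two_le_dim hn
  have h2 := R.dim_le_three hn hn14
  omega

end Pool.Agent.Results.MP_ac1762_co.DimensionTwoOrThree
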